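import Pool.Agent.Lib_helper5.FormRed

/-!
# The semigroup generated by the indecomposable formations of finite groups is free
-/

namespace Pool.Agent.Results.MP_c1d0cb_al.Free

open Pool.Agent.Lib_helper5.Form

/-- If two products (in the monoid of all formations of finite groups, with the formation
product) of indecomposable formations are equal, then the two sequences of factors coincide.
The case of empty lists (empty product, the formation of trivial groups) is included. -/
theorem result (L M : List Formation) (hL : ∀ F ∈ L, F.Indecomposable)
    (hM : ∀ F ∈ M, F.Indecomposable) (h : L.prod = M.prod) : L = M :=
  unique_factorisation_all_proof L M hL hM h

end Pool.Agent.Results.MP_c1d0cb_al.Free
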